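import Pool.Agent.E8B.Main

/-!
MP_e8b334_co, Q1: every subcubic planar graph is packing `(1, 2^5)`-choosable.
-/

set_option autoImplicit false

namespace Pool.Agent.Results.MP_e8b334_co.PlanarChoosable

open Pool.Agent.E8B

universe u v w

/-- Every finite planar graph with all degrees at most three is packing `(1, 2^5)`-choosable. -/
theorem result :
    ∀ (V : Type u) [Finite V] (G : SimpleGraph V), IsSubcubic G → IsPlanar G →
      PackingChoosable.{u, v, w} G 1 5 :=
  fun _ _ G h3 hp => choosable G h3 hp

end Pool.Agent.Results.MP_e8b334_co.PlanarChoosable
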